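import Pool.Agent.GBS.StmtsB
import Pool.Agent.Helper92_GBS.ALG

/-!
# Row MN1 of squad GBS (MP_33f2b9_gt): `|K| ≤ 1`, integrated.
-/

set_option autoImplicit false

noncomputable section

open scoped ContDiff Topology RealInnerProductSpace
open Set MeasureTheory Matrix

namespace Pool.Agent.GBS.H85

open Pool.Agent.RF Pool.Agent.MVS

theorem mn1 (cgb : CgbStmt) (frm : FrmStmt) (fra : FraStmt) (pfr : PfrStmt) (act : ActStmt)
    (cnt : CntStmt) : Mn1Stmt := by
  intro G hG hint hsec
  obtain ⟨h1, h2⟩ := cgb G hG
  obtain ⟨-, -, h3, -⟩ := cnt G hG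
  rw [← h2]
  have hmeas : MeasurableSet (slab (Fin 5)) := by
    apply IsOpen.measurableSet
    exact (isOpen_lt continuous_const continuous_norm).inter
      (isOpen_lt continuous_norm continuous_const)
  have h4 : IntegrableOn (fun x => 96 * sd (G x)) (slab (Fin 5)) := h3.const_mul 96
  have h5 : IntegrableOn (fun x => 96 * sd (G x) + |pnt G x|) (slab (Fin 5)) := h4.add hint
  calc ∫ x in slab (Fin 5), eul G x ≤ ∫ x in slab (Fin 5), (96 * sd (G x) + |pnt G x|) := by
        apply setIntegral_mono_on h1 h5 hmeas
        intro x hx
        have hx0 : x ∈ Om (Fin 5) := by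
          intro h
          have hx1 : 1 < ‖x‖ := hx.1
          rw [h, norm_zero] at hx1
          linarith
        obtain ⟨F, hF⟩ := frm G x hG hx0
        have hA := act G x F hG hx0
        have hs := hsec x hx0 F hF
        have key := H92.alg1 hA
          (fun u v => by
            have h := (hs u v).2
            rwa [one_mul] at h)
          (fun u v => by
            have h := (hs u v).1
            rwa [neg_one_mul] at h)
        rw [fra G x F hG hx0 hF, pfr G x F hG hx0 hF]
        have hsd : 0 ≤ sd (G x) := Real.sqrt_nonneg _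
        have h6 := mul_le_mul_of_nonneg_left key hsd
        linarith
    _ = 96 * (∫ x in slab (Fin 5), sd (G x)) + ∫ x in slab (Fin 5), |pnt G x| := by
        rw [integral_add h4 hint, integral_const_mul]

end Pool.Agent.GBS.H85
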